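import Pool.Agent.L7h1.SP.Prod
import Pool.Agent.L7h1.FC.Core

/-!
# Quadric bundles attached to `y² + y = x³`, with an arbitrary discriminant
-/

set_option autoImplicit false
set_option linter.unusedSectionVars false
set_option linter.unusedVariables false
set_option linter.style.haveILetI false

open IsDedekindDomain NumberField Finset
open scoped Classical

namespace Pool.Agent.L7h1.SP

open Pool.Agent.W189.NF (aV eV finite_res card_res)
open Pool.Agent.H921R2.TatePole (nm two_le_nm nm_summable)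
open Pool.Agent.Y696 (HBd LSeries_hasProd' TwoPart)
open Pool.Agent.L7h1.QB (loc loc_ne nm_ne norm_cpow fin_mem cone aff fibre_ne card_sq cone_eq)
open Pool.Agent.L7h1.FC (exists_bv IsFrob eigs eigs_sum bad_of_minimal sols)
open Pool.Agent.Y688 (E27)

section count
variable {F : Type} [Field F] [Fintype F]

/-- the number of points of the quadric bundle, for an arbitrary discriminant -/
theorem cone_gen (h2 : ringChar F ≠ 2) (m : ℕ) (a : Fin (2 * m + 1) → F) (ha : ∀ i, a i ≠ 0)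
    (f : F → F) :
    (cone F m a f : ℤ) = ((Fintype.card F : ℤ) + 1) * ((Fintype.card F : ℤ) ^ (2 * m + 1) - 1) +
      (Fintype.card F - 1) * (Fintype.card F : ℤ) ^ m *
        (quadraticChar F ((-1) ^ m * ∏ i, a i) * ((aff F f : ℤ) - Fintype.card F)) := by
  have key : ∀ g : F, quadraticChar F ((-1) ^ m * (∏ i, a i) * g) =
      quadraticChar F ((-1) ^ m * (∏ i, a i)) * quadraticChar F g := fun g => map_mul _ _ _
  have e1 : (Nat.card {p : F × (Fin (2 * m + 1) → F) × F // p.2 ≠ 0 ∧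
      ∑ j, a j * p.2.1 j ^ 2 = f p.1 * p.2.2 ^ 2} : ℤ) =
      ∑ t : F, (Nat.card {p : (Fin (2 * m + 1) → F) × F // p ≠ 0 ∧
        ∑ i, a i * p.1 i ^ 2 = f t * p.2 ^ 2} : ℤ) := by
    rw [← Nat.cast_sum]
    congr 1
    simp only [Nat.card_eq_fintype_card]
    rw [← Fintype.card_sigma]
    exact Fintype.card_congr ⟨fun p => ⟨p.1.1, p.1.2, p.2⟩, fun t => ⟨(t.1, t.2.1), t.2.2⟩,
      fun _ => rfl, fun _ => rfl⟩
  have e2 : (Nat.card {p : (Fin (2 * m + 1) → F) × F // p ≠ 0 ∧ ∑ j, a j * p.1 j ^ 2 = 0} : ℤ) =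
      (Fintype.card F : ℤ) ^ (2 * m + 1) - 1 := by
    have h3 := fibre_ne h2 m a ha 0
    rw [mul_zero, quadraticChar_zero, mul_zero, add_zero] at h3
    rw [← h3]
    congr 1
    refine Nat.card_congr (Equiv.subtypeEquivRight fun p => ?_)
    rw [zero_mul]
  have e3 : (aff F f : ℤ) = ∑ t : F, (1 + quadraticChar F (f t)) := by
    unfold aff
    have : ∀ t : F, (1 + quadraticChar F (f t)) = (Fintype.card {y : F // 1 * y ^ 2 = f t} : ℤ) :=
      fun t => by rw [card_sq h2 one_ne_zero, one_mul]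
    rw [Finset.sum_congr rfl fun t _ => this t, ← Nat.cast_sum, ← Fintype.card_sigma,
      Nat.card_eq_fintype_card]
    congr 1
    exact Fintype.card_congr ⟨fun p => ⟨p.1.1, p.1.2, by rw [one_mul]; exact p.2⟩,
      fun t => ⟨(t.1, t.2.1), by have := t.2.2; rwa [one_mul] at this⟩, fun _ => rfl, fun _ => rfl⟩
  unfold cone
  push_cast
  rw [e1, e2, e3, Finset.sum_congr rfl fun t _ => fibre_ne h2 m a ha (f t)]
  simp only [key]
  rw [Finset.sum_add_distrib, Finset.sum_add_distrib, ← Finset.mul_sum, ← Finset.mul_sum,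
    Finset.sum_const, Finset.sum_const, Finset.card_univ]
  simp only [nsmul_eq_mul]
  ring

/-- the two equations of the curve -/
lemma aff_eq (h2 : (2 : F) ≠ 0) : aff F (fun t => t ^ 3 + 16) =
    Nat.card {p : F × F // p.2 ^ 2 + p.2 = p.1 ^ 3} := by
  unfold aff
  have h4 : (4 : F) ≠ 0 := by
    have : (4 : F) = 2 * 2 := by norm_num
    rw [this]
    exact mul_ne_zero h2 h2
  have h8 : (8 : F) ≠ 0 := by
    have : (8 : F) = 4 * 2 := by norm_num
    rw [this]
    exact mul_ne_zero h4 h2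
  refine Nat.card_congr ⟨fun p => ⟨(p.1.1 / 4, (p.1.2 - 4) / 8), ?_⟩,
    fun p => ⟨(4 * p.1.1, 8 * p.1.2 + 4), ?_⟩, fun p => ?_, fun p => ?_⟩
  · have := p.2
    show ((p.1.2 - 4) / 8) ^ 2 + (p.1.2 - 4) / 8 = (p.1.1 / 4) ^ 3
    field_simp
    linear_combination 64 * this
  · have := p.2
    show (8 * p.1.2 + 4) ^ 2 = (4 * p.1.1) ^ 3 + 16
    linear_combination 64 * this
  · apply Subtype.ext
    apply Prod.ext
    · show 4 * (p.1.1 / 4) = p.1.1
      field_simp
    · show 8 * ((p.1.2 - 4) / 8) + 4 = p.1.2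
      field_simp
      ring
  · apply Subtype.ext
    apply Prod.ext
    · show 4 * p.1.1 / 4 = p.1.1
      field_simp
    · show (8 * p.1.2 + 4 - 4) / 8 = p.1.2
      field_simp
      ring

end count

section places
variable {K : Type} [Field K] [NumberField K]

/-- the residue field is finite, with `N(v)` elements -/
lemma card_quot (v : HeightOneSpectrum (𝓞 K)) : Nat.card (𝓞 K ⧸ v.asIdeal) = nm v := by
  rw [Nat.card_congr (Pool.Agent.L7h1.QB.qe v).toEquiv]
  exact card_res v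

lemma fin_quot (v : HeightOneSpectrum (𝓞 K)) : Finite (𝓞 K ⧸ v.asIdeal) := by
  refine Nat.finite_of_card_ne_zero ?_
  rw [card_quot]
  have := two_le_nm v
  omega

/-- the sum of the two eigenvalues, from the number of points of the cubic curve -/
lemma frob_one {q : ℕ} {β : ℂ} (h : IsFrob 1 q (eigs 1 0 q β)) (F : Type) [Field F] [Finite F]
    (r : ℕ) (hF : Nat.card F = q ^ r) :
    ((sols 3 F).ncard : ℂ) = (Nat.card F - 1) * (1 + Nat.card F -
      (β ^ r + ((starRingEnd ℂ) β) ^ r)) := by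
  have h1 := h F r hF
  rw [eigs_sum] at h1
  simp only [pow_zero, one_mul, Nat.cast_one] at h1
  rw [Finset.sum_range_succ, Finset.sum_range_one, pow_zero, pow_one] at h1
  exact h1

/-- two descriptions of the number of points -/
lemma frob_eq {q q' : ℕ} {β β' : ℂ} (h : IsFrob 1 q (eigs 1 0 q β))
    (h' : IsFrob 1 q' (eigs 1 0 q' β')) {r : ℕ} (F : Type) [Field F] [Finite F]
    (hF : Nat.card F = q ^ r) (hF' : Nat.card F = q') :
    β' + (starRingEnd ℂ) β' = β ^ r + ((starRingEnd ℂ) β) ^ r := by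
  have h1 := frob_one h F r hF
  have h2 := frob_one h' F 1 (by rw [hF', pow_one])
  rw [h1, pow_one, pow_one] at h2
  have h3 : (Nat.card F : ℂ) - 1 ≠ 0 := by
    have : 1 < Nat.card F := Finite.one_lt_card
    rw [sub_ne_zero]
    exact_mod_cast this.ne'
  have h4 := mul_left_cancel₀ h3 h2
  linear_combination h4

/-- the eigenvalues -/
lemma bv (v : HeightOneSpectrum (𝓞 K)) (h3 : (3 : 𝓞 K) ∉ v.asIdeal) :
    ∃ β : ℂ, β * (starRingEnd ℂ) β = nm v ∧
      ((aV (E27 K) v : ℤ) : ℂ) = β + (starRingEnd ℂ) β ∧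
      ((eV (E27 K) v : ℤ) : ℂ) = nm v ∧ IsFrob 1 (nm v) (eigs 1 0 (nm v) β) := by
  obtain ⟨β, h1, h2, h4, h5⟩ := exists_bv v h3
  refine ⟨β, h1, h2, h4, ?_⟩
  have h6 := h5 0 (by norm_num)
  simpa using h6

end places

section rel
variable {k K : Type} [Field k] [NumberField k] [Field K] [NumberField K] [Algebra k K]

/-- the quadratic symbol `(δ / v)` for `v` not dividing `2 δ` -/
noncomputable def qs (δ : 𝓞 k) (v : HeightOneSpectrum (𝓞 k)) : ℤ :=
  if ∃ a : 𝓞 k, a ^ 2 - δ ∈ v.asIdeal then 1 else -1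

/-- **The factors at the places above `v`.** -/
theorem loc_rel (h2 : Module.finrank k K = 2) {r : 𝓞 K} {δ : 𝓞 k}
    (hr : r ^ 2 = algebraMap (𝓞 k) (𝓞 K) δ) (hns : ∀ x : k, algebraMap k K x ≠ r)
    {v : HeightOneSpectrum (𝓞 k)} (h2v : (2 : 𝓞 k) ∉ v.asIdeal) (h3v : (3 : 𝓞 k) ∉ v.asIdeal)
    (hδ : δ ∉ v.asIdeal) (s : ℂ) :
    P (E27 K) v s = loc (E27 k) v ((nm v : ℂ) ^ (-s)) *
      loc (E27 k) v ((qs δ v : ℂ) * (nm v : ℂ) ^ (-s)) := by
  obtain ⟨β, b1, b2, b3, b4⟩ := bv v h3v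
  have h3w : ∀ w : HeightOneSpectrum (𝓞 K), w.asIdeal.LiesOver v.asIdeal →
      (3 : 𝓞 K) ∉ w.asIdeal := by
    intro w hw h
    have := not_mem_of (P := w.asIdeal) h3v
    rw [map_ofNat] at this
    exact this h
  rcases split h2 hr hns v h2v hδ with ⟨hsq, w, w', hne, hlo, hw, hw'⟩ | ⟨hsq, w, hlo, hw⟩
  · have hfib : fib K v = {w, w'} := by
      ext u
      rw [mem_fib', hlo]
      simp
    have hone : ∀ u : HeightOneSpectrum (𝓞 K), u.asIdeal.LiesOver v.asIdeal →
        Nat.card (𝓞 K ⧸ u.asIdeal) = Nat.card (𝓞 k ⧸ v.asIdeal) →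
        loc (E27 K) u ((nm u : ℂ) ^ (-s)) = loc (E27 k) v ((nm v : ℂ) ^ (-s)) := by
      intro u hu hc
      rw [card_quot, card_quot] at hc
      obtain ⟨β', c1, c2, c3, c4⟩ := bv u (h3w u hu)
      have hm : u.asIdeal.IsMaximal := u.isMaximal
      letI : Field (𝓞 K ⧸ u.asIdeal) := Ideal.Quotient.field u.asIdeal
      have hf := fin_quot u
      have h5 := frob_eq b4 c4 (r := 1) (𝓞 K ⧸ u.asIdeal) (by rw [card_quot, hc, pow_one])
        (card_quot u)
      rw [pow_one, pow_one] at h5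
      unfold loc
      rw [b2, b3, c2, c3, hc, h5]
    unfold P
    rw [hfib, Finset.prod_pair hne, hone w ((hlo w).2 (Or.inl rfl)) hw,
      hone w' ((hlo w').2 (Or.inr rfl)) hw']
    have e : qs δ v = 1 := if_pos hsq
    rw [e]
    simp
  · have hfib : fib K v = {w} := by
      ext u
      rw [mem_fib', hlo]
      simp
    have hlw : w.asIdeal.LiesOver v.asIdeal := (hlo w).2 rfl
    rw [card_quot, card_quot] at hw
    obtain ⟨β', c1, c2, c3, c4⟩ := bv w (h3w w hlw)
    have hm : w.asIdeal.IsMaximal := w.isMaximal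
    letI : Field (𝓞 K ⧸ w.asIdeal) := Ideal.Quotient.field w.asIdeal
    have hf := fin_quot w
    have h5 := frob_eq b4 c4 (r := 2) (𝓞 K ⧸ w.asIdeal) (by rw [card_quot, hw]) (card_quot w)
    have e : qs δ v = -1 := if_neg hsq
    have hX : (nm w : ℂ) ^ (-s) = ((nm v : ℂ) ^ (-s)) ^ 2 := by
      rw [hw]
      push_cast
      rw [← Complex.natCast_cpow_natCast_mul, Complex.cpow_nat_mul]
    unfold P
    rw [hfib, Finset.prod_singleton, hX, e]
    unfold loc
    rw [b2, b3, c2, c3, hw, h5]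
    push_cast
    linear_combination (2 * ((nm v : ℂ) ^ (-s)) ^ 2) * b1

end rel

end Pool.Agent.L7h1.SP
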