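import Pool.Agent.L7h1.SP.Tw

/-!
# Quadric bundles attached to `y² + y = x³`: the `L`-functions and the points
-/

set_option autoImplicit false
set_option linter.unusedSectionVars false
set_option linter.unusedVariables false
set_option linter.style.haveILetI false

open IsDedekindDomain NumberField Finset
open scoped Classical

namespace Pool.Agent.L7h1.SP

open Pool.Agent.W189.NF (aV eV finite_res card_res)
open Pool.Agent.H921R2.TatePole (nm two_le_nm nm_summable)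
open Pool.Agent.Y696 (HBd LSeries_hasProd' TwoPart)
open Pool.Agent.L7h1.QB (loc loc_ne nm_ne norm_cpow fin_mem cone aff fibre_ne card_sq cone_eq)
open Pool.Agent.L7h1.FC (exists_bv IsFrob eigs eigs_sum bad_of_minimal sols)
open Pool.Agent.Y688 (E27 NP aV_good)

section one
variable {k : Type} [Field k] [NumberField k]

/-- the Euler product without finitely many factors -/
theorem one_euler {E : WeierstrassCurve k} (hE : ∀ v, HBd (aV E v) (eV E v) (nm v))
    {Lk : ℂ → ℂ} (m1 : MeromorphicOn Lk Set.univ)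
    (m2 : ∀ s : ℂ, 3 / 2 < s.re → Lk s = E.LSeries s)
    (m3 : AnalyticAt ℂ Lk 1) (m4 : Lk 1 ≠ 0) {B : 𝓞 k} (hB : B ≠ 0) :
    ∃ L : ℂ → ℂ, MeromorphicOn L Set.univ ∧ AnalyticAt ℂ L 1 ∧ L 1 ≠ 0 ∧
      ∀ s : ℂ, 3 / 2 < s.re →
        HasProd (fun v : {v : HeightOneSpectrum (𝓞 k) // B ∉ v.asIdeal} =>
          (loc E v.1 ((nm v.1 : ℂ) ^ (-s)))⁻¹) (L s) := by
  have hfin := fin_mem (K := k) hB
  let C : ℂ → ℂ := fun s => ∏ v ∈ hfin.toFinset, loc E v ((nm v : ℂ) ^ (-s))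
  have hCd : Differentiable ℂ C := Differentiable.fun_finsetProd fun v _ => loc_diff E v
  have hC1 : C 1 ≠ 0 := Finset.prod_ne_zero_iff.2 fun v _ => loc_ne (hE v) (by norm_num)
  refine ⟨fun s => Lk s * C s, fun s _ => ?_, ?_, ?_, fun s hs => ?_⟩
  · exact (m1 s (Set.mem_univ _)).mul (hCd.analyticAt s).meromorphicAt
  · exact m3.mul (hCd.analyticAt 1)
  · exact mul_ne_zero m4 hC1
  · obtain ⟨-, a1⟩ := LSeries_hasProd' E hE hs
    rw [← m2 s hs] at a1
    have a1' : HasProd (fun v : HeightOneSpectrum (𝓞 k) => (loc E v ((nm v : ℂ) ^ (-s)))⁻¹)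
      (Lk s) := a1
    have h6 : HasProd (fun v : HeightOneSpectrum (𝓞 k) => if B ∈ v.asIdeal then
        loc E v ((nm v : ℂ) ^ (-s)) else 1)
        (∏ v ∈ hfin.toFinset, if B ∈ v.asIdeal then loc E v ((nm v : ℂ) ^ (-s)) else 1) := by
      refine hasProd_prod_of_ne_finset_one fun v hv => ?_
      rw [if_neg]
      intro h
      exact hv (hfin.mem_toFinset.2 h)
    have h7 : (∏ v ∈ hfin.toFinset, if B ∈ v.asIdeal then
        loc E v ((nm v : ℂ) ^ (-s)) else 1) = C s :=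
      Finset.prod_congr rfl fun p hp => if_pos (hfin.mem_toFinset.1 hp)
    rw [h7] at h6
    have h8 : HasProd (fun v : {v : HeightOneSpectrum (𝓞 k) | B ∉ v.asIdeal} =>
        (loc E v.1 ((nm v.1 : ℂ) ^ (-s)))⁻¹) (Lk s * C s) := by
      rw [← Function.comp_def (f := fun v : HeightOneSpectrum (𝓞 k) =>
        (loc E v ((nm v : ℂ) ^ (-s)))⁻¹), hasProd_subtype_iff_mulIndicator]
      refine (a1'.mul h6).congr_fun fun v => ?_
      by_cases hv : B ∈ v.asIdeal
      · rw [if_pos hv, Set.mulIndicator_of_notMem (by simpa using hv)]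
        exact (inv_mul_cancel₀ (loc_ne (hE v) (by linarith))).symm
      · rw [if_neg hv, Set.mulIndicator_of_mem (by simpa using hv), mul_one]
    exact h8

lemma hbd (h : TwoPart k) (v : HeightOneSpectrum (𝓞 k)) :
    HBd (aV (E27 k) v) (eV (E27 k) v) (nm v) := by
  by_cases h3 : (3 : 𝓞 k) ∈ v.asIdeal
  · exact Or.inl (bad_of_minimal v h3 (h.loc v).1)
  · obtain ⟨β, b1, b2, b3, -⟩ := bv v h3
    exact Or.inr ⟨β, b2, by rw [b3, b1], b1⟩

/-- **the points modulo a place** -/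
theorem count (v : HeightOneSpectrum (𝓞 k)) (h2 : (2 : 𝓞 k) ∉ v.asIdeal)
    (h3 : (3 : 𝓞 k) ∉ v.asIdeal) (m : ℕ) {a : Fin (2 * m + 1) → 𝓞 k}
    (ha : ∀ i, a i ∉ v.asIdeal) :
    ∃ α : ℂ, ‖α‖ ^ 2 = (nm v : ℝ) ^ (2 * m + 1) ∧
      (cone (𝓞 k ⧸ v.asIdeal) m (fun i => Ideal.Quotient.mk v.asIdeal (a i))
        (fun t => t ^ 3 + 16) : ℂ) =
        ((nm v : ℂ) - 1) * ((1 + nm v) * ∑ l ∈ range (2 * m + 1), (nm v : ℂ) ^ l -
          (α + (starRingEnd ℂ) α)) ∧
      ∀ X : ℂ, loc (E27 k) v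
        ((qs ((-1) ^ m * ∏ i, a i) v : ℂ) * ((nm v : ℂ) ^ m * X)) =
        (1 - α * X) * (1 - (starRingEnd ℂ) α * X) := by
  have hm : v.asIdeal.IsMaximal := v.isMaximal
  letI : Field (𝓞 k ⧸ v.asIdeal) := Ideal.Quotient.field v.asIdeal
  have hfin := fin_quot v
  letI : Fintype (𝓞 k ⧸ v.asIdeal) := Fintype.ofFinite _
  have hcard : Fintype.card (𝓞 k ⧸ v.asIdeal) = nm v := by
    rw [← Nat.card_eq_fintype_card]
    exact card_quot v
  have hne : ∀ x : 𝓞 k, x ∉ v.asIdeal → Ideal.Quotient.mk v.asIdeal x ≠ 0 := fun x hx => by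
    rwa [Ne, Ideal.Quotient.eq_zero_iff_mem]
  have h2' : (2 : 𝓞 k ⧸ v.asIdeal) ≠ 0 := by
    have h := hne 2 h2
    rwa [map_ofNat] at h
  have hchar : ringChar (𝓞 k ⧸ v.asIdeal) ≠ 2 := by
    intro h
    apply h2'
    have h5 : ((2 : ℕ) : 𝓞 k ⧸ v.asIdeal) = 0 := by
      rw [← h]
      exact ringChar.Nat.cast_ringChar
    exact_mod_cast h5
  obtain ⟨β, b1, b2, b3, -⟩ := bv v h3
  set χ : ℤ := qs ((-1) ^ m * ∏ i, a i) v with hχ
  have hχ' : quadraticChar (𝓞 k ⧸ v.asIdeal)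
      ((-1) ^ m * ∏ i, Ideal.Quotient.mk v.asIdeal (a i)) = χ := by
    have e1 : (-1) ^ m * ∏ i, Ideal.Quotient.mk v.asIdeal (a i) =
        Ideal.Quotient.mk v.asIdeal ((-1) ^ m * ∏ i, a i) := by
      rw [map_mul, map_pow, map_neg, map_one, map_prod]
    have hd : (-1) ^ m * ∏ i, a i ∉ v.asIdeal := by
      intro h
      rcases v.isPrime.mem_or_mem h with h | h
      · have h5 := v.isPrime.mem_of_pow_mem _ h
        rw [neg_mem_iff] at h5
        exact v.isPrime.ne_top ((Ideal.eq_top_iff_one _).2 h5)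
      · obtain ⟨i, -, hi⟩ := (v.isPrime.prod_mem_iff).1 h
        exact ha i hi
    rw [e1, hχ]
    unfold qs
    split_ifs with h
    · obtain ⟨b, hb⟩ := h
      rw [quadraticChar_one_iff_isSquare (hne _ hd)]
      refine ⟨Ideal.Quotient.mk v.asIdeal b, ?_⟩
      rw [← map_mul, ← pow_two]
      exact ((Ideal.Quotient.eq).2 hb).symm
    · rw [quadraticChar_neg_one_iff_not_isSquare]
      rintro ⟨c, hc⟩
      obtain ⟨b, rfl⟩ := Ideal.Quotient.mk_surjective c
      apply h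
      refine ⟨b, ?_⟩
      rw [← Ideal.Quotient.eq, hc, pow_two, map_mul]
  have hχ1 : χ = 1 ∨ χ = -1 := by
    rw [hχ]
    unfold qs
    split_ifs
    · exact Or.inl rfl
    · exact Or.inr rfl
  have hχ2 : (χ : ℂ) ^ 2 = 1 := by
    rcases hχ1 with h | h <;> rw [h] <;> norm_num
  have hχn : ‖(χ : ℂ)‖ = 1 := by
    rcases hχ1 with h | h <;> rw [h] <;> norm_num
  have hχc : (starRingEnd ℂ) (χ : ℂ) = χ := by
    rcases hχ1 with h | h <;> rw [h] <;> norm_num
  have hcone := cone_gen hchar m (fun i => Ideal.Quotient.mk v.asIdeal (a i))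
    (fun i => hne _ (ha i)) (fun t => t ^ 3 + 16)
  rw [hcard, hχ'] at hcone
  have hcone' : (cone (𝓞 k ⧸ v.asIdeal) m (fun i => Ideal.Quotient.mk v.asIdeal (a i))
      (fun t => t ^ 3 + 16) : ℂ) =
      ((nm v : ℂ) + 1) * ((nm v : ℂ) ^ (2 * m + 1) - 1) +
      ((nm v : ℂ) - 1) * (nm v : ℂ) ^ m *
        ((χ : ℂ) * ((aff (𝓞 k ⧸ v.asIdeal) (fun t => t ^ 3 + 16) : ℂ) - nm v)) := by
    exact_mod_cast hcone
  have hA : (aff (𝓞 k ⧸ v.asIdeal) (fun t => t ^ 3 + 16) : ℂ) - nm v =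
      -(β + (starRingEnd ℂ) β) := by
    obtain ⟨l1, -⟩ := aV_good v h3
    have e1 : aff (𝓞 k ⧸ v.asIdeal) (fun t => t ^ 3 + 16) = NP (𝓞 k ⧸ v.asIdeal) := aff_eq h2'
    have e2 := Pool.Agent.L7h1.FC.NP_congr (Pool.Agent.L7h1.FC.qe v)
    rw [e1, e2, ← b2, l1]
    push_cast
    ring
  refine ⟨(χ : ℂ) * ((nm v : ℂ) ^ m * β), ?_, ?_, fun X => ?_⟩
  · have h6 : ‖β‖ ^ 2 = (nm v : ℝ) := by
      rw [Complex.sq_norm]
      rw [Complex.mul_conj] at b1
      exact_mod_cast b1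
    rw [norm_mul, norm_mul, hχn, one_mul, mul_pow, h6, norm_pow, Complex.norm_natCast]
    ring
  · have hgeom : ((nm v : ℂ) - 1) * ∑ i ∈ Finset.range (2 * m + 1), (nm v : ℂ) ^ i =
        (nm v : ℂ) ^ (2 * m + 1) - 1 := by
      rw [mul_comm]
      exact geom_sum_mul _ _
    rw [hcone', hA, map_mul, map_mul, map_pow, Complex.conj_natCast, hχc]
    linear_combination (-(1 + (nm v : ℂ))) * hgeom
  · unfold loc
    rw [b2, b3, map_mul, map_mul, map_pow, Complex.conj_natCast, hχc]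
    linear_combination (-((χ : ℂ) * ((nm v : ℂ) ^ m * X)) ^ 2) * b1

end one

section two
variable {k K : Type} [Field k] [NumberField k] [Field K] [NumberField K] [Algebra k K]

lemma deg_two {d : k} {r : K} (hr : r ^ 2 = algebraMap k K d)
    (hadj : IntermediateField.adjoin k {r} = ⊤) (hns : ∀ x : k, x ^ 2 ≠ d) :
    Module.finrank k K = 2 := by
  have hirr : Irreducible (Polynomial.X ^ 2 - Polynomial.C d) := by
    rw [X_pow_sub_C_irreducible_iff_of_prime Nat.prime_two]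
    exact fun b => hns b
  have hmin : minpoly k r = Polynomial.X ^ 2 - Polynomial.C d := by
    refine (minpoly.eq_of_irreducible_of_monic hirr ?_
      (Polynomial.monic_X_pow_sub_C _ two_ne_zero)).symm
    rw [map_sub, map_pow, Polynomial.aeval_X, Polynomial.aeval_C, hr, sub_self]
  have hint : IsIntegral k r := by
    refine ⟨Polynomial.X ^ 2 - Polynomial.C d, Polynomial.monic_X_pow_sub_C _ two_ne_zero, ?_⟩
    rw [Polynomial.eval₂_sub, Polynomial.eval₂_pow, Polynomial.eval₂_X, Polynomial.eval₂_C, hr,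
      sub_self]
  have h3 := IntermediateField.adjoin.finrank hint
  rw [hadj, hmin, Polynomial.natDegree_X_pow_sub_C, IntermediateField.finrank_top'] at h3
  exact h3

/-- **The `L`-function.** -/
theorem lfun (hk : TwoPart k) (hK : TwoPart K) (m : ℕ) {a : Fin (2 * m + 1) → 𝓞 k}
    (ha : ∀ i, a i ≠ 0) {r : K}
    (hr : r ^ 2 = algebraMap k K (((-1) ^ m * ∏ i, a i : 𝓞 k) : k))
    (hadj : IntermediateField.adjoin k {r} = ⊤) :
    ∃ L : ℂ → ℂ, MeromorphicOn L Set.univ ∧ AnalyticAt ℂ L (m + 1) ∧ L (m + 1) ≠ 0 ∧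
      ∃ α : HeightOneSpectrum (𝓞 k) → ℂ,
        (∀ v : HeightOneSpectrum (𝓞 k), 6 * ∏ i, a i ∉ v.asIdeal →
          ‖α v‖ ^ 2 = (nm v : ℝ) ^ (2 * m + 1) ∧
          (cone (𝓞 k ⧸ v.asIdeal) m (fun i => Ideal.Quotient.mk v.asIdeal (a i))
            (fun t => t ^ 3 + 16) : ℂ) =
            ((nm v : ℂ) - 1) * ((1 + nm v) * ∑ l ∈ range (2 * m + 1), (nm v : ℂ) ^ l -
              (α v + (starRingEnd ℂ) (α v)))) ∧
        ∀ s : ℂ, m + 3 / 2 < s.re →
          HasProd (fun v : {v : HeightOneSpectrum (𝓞 k) // 6 * ∏ i, a i ∉ v.asIdeal} =>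
            ((1 - α v.1 * (nm v.1 : ℂ) ^ (-s)) *
              (1 - (starRingEnd ℂ) (α v.1) * (nm v.1 : ℂ) ^ (-s)))⁻¹) (L s) := by
  set δ : 𝓞 k := (-1) ^ m * ∏ i, a i with hδ
  set B : 𝓞 k := 6 * ∏ i, a i with hB
  have hB0 : B ≠ 0 := mul_ne_zero (by norm_num) (Finset.prod_ne_zero_iff.2 fun j _ => ha j)
  have b2 : ∀ v : HeightOneSpectrum (𝓞 k), B ∉ v.asIdeal → (2 : 𝓞 k) ∉ v.asIdeal := by
    intro v hv h
    apply hv
    have e : B = 2 * (3 * ∏ i, a i) := by rw [hB]; ring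
    rw [e]
    exact Ideal.mul_mem_right _ _ h
  have b3 : ∀ v : HeightOneSpectrum (𝓞 k), B ∉ v.asIdeal → (3 : 𝓞 k) ∉ v.asIdeal := by
    intro v hv h
    apply hv
    have e : B = 3 * (2 * ∏ i, a i) := by rw [hB]; ring
    rw [e]
    exact Ideal.mul_mem_right _ _ h
  have b4 : ∀ (v : HeightOneSpectrum (𝓞 k)) (i), B ∉ v.asIdeal → a i ∉ v.asIdeal :=
    fun v j hv h => hv (Ideal.mul_mem_left _ _
      (Ideal.mem_of_dvd _ (Finset.dvd_prod_of_mem a (Finset.mem_univ j)) h))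
  have b5 : ∀ v : HeightOneSpectrum (𝓞 k), B ∉ v.asIdeal → δ ∉ v.asIdeal := by
    intro v hv h
    rcases v.isPrime.mem_or_mem h with h | h
    · have h5 := v.isPrime.mem_of_pow_mem _ h
      rw [neg_mem_iff] at h5
      exact v.isPrime.ne_top ((Ideal.eq_top_iff_one _).2 h5)
    · exact hv (Ideal.mul_mem_left _ _ h)
  -- the `L`-function of the twist
  obtain ⟨L₀, c1, c2, c3, c4⟩ : ∃ L : ℂ → ℂ, MeromorphicOn L Set.univ ∧ AnalyticAt ℂ L 1 ∧
      L 1 ≠ 0 ∧ ∀ s : ℂ, 3 / 2 < s.re →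
        HasProd (fun v : {v : HeightOneSpectrum (𝓞 k) // B ∉ v.asIdeal} =>
          (loc (E27 k) v.1 ((qs δ v.1 : ℂ) * (nm v.1 : ℂ) ^ (-s)))⁻¹) (L s) := by
    obtain ⟨Lk, m1, m2, m3, m4, -⟩ := hk.analytic
    obtain ⟨LK, n1, n2, n3, n4, -⟩ := hK.analytic
    by_cases hns : ∀ x : k, x ^ 2 ≠ (δ : k)
    · have h2 := deg_two hr hadj hns
      have hri : IsIntegral ℤ r := by
        have h5 : IsIntegral ℤ (r ^ 2) := by
          rw [hr]
          exact (algebraMap (𝓞 k) (𝓞 K) δ).isIntegral_coe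
        exact IsIntegral.of_pow (by norm_num) h5
      obtain ⟨r', rfl⟩ : ∃ r' : 𝓞 K, (r' : K) = r := ⟨⟨r, hri⟩, rfl⟩
      have hr' : r' ^ 2 = algebraMap (𝓞 k) (𝓞 K) δ := RingOfIntegers.ext hr
      have hns' : ∀ x : k, algebraMap k K x ≠ r' := by
        intro x hx
        apply hns x
        apply (algebraMap k K).injective
        rw [map_pow, hx, hr]
      exact twist_euler (hbd hk) (hbd hK) m1 (fun s hs => (m2 s hs).2) m3 m4 n1
        (fun s hs => (n2 s hs).2) n3 n4 hB0 (fun v => (qs δ v : ℂ)) (fun v hv s =>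
          loc_rel h2 hr' hns' (b2 v hv) (b3 v hv) (b5 v hv) s)
    · push Not at hns
      obtain ⟨x, hx⟩ := hns
      have hxi : IsIntegral ℤ x := by
        have h5 : IsIntegral ℤ (x ^ 2) := by
          rw [hx]
          exact δ.isIntegral_coe
        exact IsIntegral.of_pow (by norm_num) h5
      have hq : ∀ v : HeightOneSpectrum (𝓞 k), qs δ v = 1 := by
        intro v
        obtain ⟨x', hx'⟩ : ∃ x' : 𝓞 k, (x' : k) = x := ⟨⟨x, hxi⟩, rfl⟩
        refine if_pos ⟨x', ?_⟩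
        have e : x' ^ 2 = δ := by
          apply RingOfIntegers.ext
          rw [← hx, ← hx']
          rfl
        rw [e, sub_self]
        exact v.asIdeal.zero_mem
      obtain ⟨L, l1, l2, l3, l4⟩ := one_euler (hbd hk) m1 (fun s hs => (m2 s hs).2) m3 m4 hB0
      refine ⟨L, l1, l2, l3, fun s hs => ?_⟩
      refine (l4 s hs).congr_fun fun v => ?_
      rw [hq, Int.cast_one, one_mul]
  have hch : ∀ v : HeightOneSpectrum (𝓞 k), ∃ α : ℂ, B ∉ v.asIdeal →
      ‖α‖ ^ 2 = (nm v : ℝ) ^ (2 * m + 1) ∧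
      (cone (𝓞 k ⧸ v.asIdeal) m (fun i => Ideal.Quotient.mk v.asIdeal (a i))
        (fun t => t ^ 3 + 16) : ℂ) =
        ((nm v : ℂ) - 1) * ((1 + nm v) * ∑ l ∈ range (2 * m + 1), (nm v : ℂ) ^ l -
          (α + (starRingEnd ℂ) α)) ∧
      ∀ X : ℂ, loc (E27 k) v ((qs δ v : ℂ) * ((nm v : ℂ) ^ m * X)) =
        (1 - α * X) * (1 - (starRingEnd ℂ) α * X) := by
    intro v
    by_cases h : B ∈ v.asIdeal
    · exact ⟨0, fun h' => absurd h h'⟩
    · obtain ⟨α, hα⟩ := count v (b2 v h) (b3 v h) m (fun i => b4 v i h)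
      exact ⟨α, fun _ => hα⟩
  choose α hα using hch
  refine ⟨fun s => L₀ (s - m), fun s _ => ?_, ?_, ?_, α,
    fun v hv => ⟨(hα v hv).1, (hα v hv).2.1⟩, fun s hs => ?_⟩
  · have h1 : MeromorphicAt L₀ (s - m) := c1 (s - m) (Set.mem_univ _)
    exact h1.comp_analyticAt (f := L₀) (g := fun z : ℂ => z - (m : ℂ)) (by fun_prop)
  · have h1 : AnalyticAt ℂ L₀ ((fun z : ℂ => z - (m : ℂ)) (m + 1)) := by
      have : (fun z : ℂ => z - (m : ℂ)) (m + 1) = 1 := by
        show (m : ℂ) + 1 - m = 1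
        ring
      rw [this]
      exact c2
    exact AnalyticAt.comp (g := L₀) (f := fun z : ℂ => z - (m : ℂ)) (x := (m : ℂ) + 1) h1
      (analyticAt_id.sub analyticAt_const)
  · show L₀ ((m : ℂ) + 1 - m) ≠ 0
    rw [show (m : ℂ) + 1 - m = 1 by ring]
    exact c3
  · have hre : 3 / 2 < (s - (m : ℂ)).re := by
      rw [Complex.sub_re, Complex.natCast_re]
      linarith
    refine (c4 (s - m) hre).congr_fun fun v => ?_
    rw [← (hα v.1 v.2).2.2, show -(s - (m : ℂ)) = (m : ℂ) + -s by ring,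
      Complex.cpow_add _ _ (nm_ne v.1), Complex.cpow_natCast]

/-- the curve of the double cover given by the discriminant: `y² = x³ + 16 δ³` -/
def tw (δ : k) : WeierstrassCurve k := ⟨0, 0, 0, 0, 16 * δ ^ 3⟩

/-- the points of the twist -/
theorem pts (hK : Finite (E27 K).toAffine.Point) {δ : k} (hδ : δ ≠ 0) {r : K}
    (hr : r ^ 2 = algebraMap k K δ) : Finite (tw δ).toAffine.Point := by
  set ι := algebraMap k K
  have hδ' : ι δ ≠ 0 := (map_ne_zero ι).2 hδ
  have hr0 : r ≠ 0 := by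
    rintro rfl
    apply hδ'
    rw [← hr]
    norm_num
  have h4 : (4 : K) ≠ 0 := by norm_num
  have heq : ∀ x y : k, (tw δ).toAffine.Nonsingular x y →
      (E27 K).toAffine.Nonsingular (ι x / (4 * ι δ)) ((ι y / r ^ 3 - 4) / 8) := by
    intro x y h
    have h1 := h.1
    rw [WeierstrassCurve.Affine.equation_iff] at h1
    simp only [tw] at h1
    have h2 : ι y ^ 2 = ι x ^ 3 + 16 * ι δ ^ 3 := by
      rw [← map_pow, ← map_pow, ← map_pow, ← map_ofNat ι 16, ← map_mul, ← map_add]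
      congr 1
      linear_combination h1
    have he : (E27 K).toAffine.Equation (ι x / (4 * ι δ)) ((ι y / r ^ 3 - 4) / 8) := by
      rw [WeierstrassCurve.Affine.equation_iff]
      simp only [E27]
      have h6 : ι δ = r ^ 2 := hr.symm
      rw [h6] at h2 ⊢
      field_simp
      linear_combination 64 * h2
    have hΔ : (E27 K).Δ ≠ 0 := by
      rw [Pool.Agent.Y688.E27_Δ]
      norm_num
    exact (WeierstrassCurve.Affine.equation_iff_nonsingular_of_Δ_ne_zero hΔ).1 he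
  let f : (tw δ).toAffine.Point → (E27 K).toAffine.Point := fun P =>
    match P with
    | .zero => .zero
    | .some x y h => .some _ _ (heq x y h)
  refine Finite.of_injective f ?_
  intro P Q hPQ
  rcases P with _ | ⟨x, y, h⟩ <;> rcases Q with _ | ⟨x', y', h'⟩
  · rfl
  · exact absurd hPQ (by simp [f])
  · exact absurd hPQ (by simp [f])
  · have h5 : ι x / (4 * ι δ) = ι x' / (4 * ι δ) ∧
        (ι y / r ^ 3 - 4) / 8 = (ι y' / r ^ 3 - 4) / 8 := by
      simpa [f] using hPQ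
    obtain ⟨e1, e2⟩ := h5
    have e3 : ι x = ι x' := by
      field_simp at e1
      exact e1
    have e4 : ι y = ι y' := by
      field_simp at e2
      linear_combination e2
    have e5 := ι.injective e3
    have e6 := ι.injective e4
    subst e5
    subst e6
    rfl

end two

end Pool.Agent.L7h1.SP
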