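import Pool.Agent.L7h1.SP.Split
import Pool.Agent.L7h1.QB.Lf

/-!
# The Euler product of a quadratic twist over a number field
-/

set_option autoImplicit false
set_option linter.unusedSectionVars false
set_option linter.unusedVariables false
set_option linter.style.haveILetI false

open IsDedekindDomain NumberField
open scoped Classical

namespace Pool.Agent.L7h1.SP

open Pool.Agent.W189.NF (aV eV)
open Pool.Agent.H921R2.TatePole (nm two_le_nm nm_summable)
open Pool.Agent.Y696 (HBd LSeries_hasProd')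
open Pool.Agent.L7h1.QB (loc loc_ne nm_ne norm_cpow fin_mem)

section nonvan
variable {K : Type} [Field K] [NumberField K]

lemma loc_sub {E : WeierstrassCurve K} {v : HeightOneSpectrum (𝓞 K)}
    (h : HBd (aV E v) (eV E v) (nm v)) {s : ℂ} (hs : 3 / 2 < s.re) :
    ‖loc E v ((nm v : ℂ) ^ (-s)) - 1‖ ≤ 3 * (nm v : ℝ) ^ (-(s.re - 1 / 2)) := by
  have hq1 : (1 : ℝ) < (nm v : ℝ) := by
    have := two_le_nm v
    exact_mod_cast (by omega : 1 < nm v)
  have hq0 : (0 : ℝ) < (nm v : ℝ) := by linarith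
  rcases h with ⟨h1, h2⟩ | ⟨x, h1, h2, h3⟩
  · unfold loc
    rw [h1, h2]
    simp only [Int.cast_zero, zero_mul, sub_zero, add_zero, sub_self, norm_zero]
    positivity
  · have hx : ‖x‖ = (nm v : ℝ) ^ (1 / 2 : ℝ) := by
      have h4 : ‖x‖ ^ 2 = (nm v : ℝ) := by
        rw [Complex.sq_norm]
        rw [Complex.mul_conj] at h3
        exact_mod_cast h3
      rw [← Real.sqrt_eq_rpow, ← h4, Real.sqrt_sq (norm_nonneg _)]
    set X := (nm v : ℂ) ^ (-s) with hX
    have hXn : ‖X‖ = (nm v : ℝ) ^ (-s.re) := norm_cpow v s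
    have e : loc E v X - 1 = -(x * X) - (starRingEnd ℂ) x * X + (x * X) * ((starRingEnd ℂ) x * X) := by
      unfold loc
      rw [h1, h2]
      ring
    have hy : ‖x * X‖ = (nm v : ℝ) ^ (-(s.re - 1 / 2)) := by
      rw [norm_mul, hx, hXn, ← Real.rpow_add hq0]
      congr 1
      ring
    have hy' : ‖(starRingEnd ℂ) x * X‖ = (nm v : ℝ) ^ (-(s.re - 1 / 2)) := by
      rw [norm_mul, RCLike.norm_conj, ← norm_mul, hy]
    set y := (nm v : ℝ) ^ (-(s.re - 1 / 2)) with hyd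
    have hy0 : 0 ≤ y := by positivity
    have hy1 : y ≤ 1 := Real.rpow_le_one_of_one_le_of_nonpos hq1.le (by linarith)
    rw [e]
    calc ‖-(x * X) - (starRingEnd ℂ) x * X + (x * X) * ((starRingEnd ℂ) x * X)‖
        ≤ ‖-(x * X)‖ + ‖(starRingEnd ℂ) x * X‖ + ‖(x * X) * ((starRingEnd ℂ) x * X)‖ :=
          (norm_add_le _ _).trans (by gcongr; exact norm_sub_le _ _)
      _ = y + y + y * y := by rw [norm_neg, hy, hy', norm_mul, hy, hy']
      _ ≤ 3 * y := by nlinarith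

/-- the Euler product is not zero -/
theorem euler_ne {E : WeierstrassCurve K} (hE : ∀ v, HBd (aV E v) (eV E v) (nm v)) {s : ℂ}
    (hs : 3 / 2 < s.re) {L : ℂ}
    (hL : HasProd (fun v : HeightOneSpectrum (𝓞 K) => (loc E v ((nm v : ℂ) ^ (-s)))⁻¹) L) :
    L ≠ 0 := by
  have h1 : Summable fun v : HeightOneSpectrum (𝓞 K) => 3 * (nm v : ℝ) ^ (-(s.re - 1 / 2)) :=
    (nm_summable (by linarith)).mul_left 3
  have h2 : Summable fun v : HeightOneSpectrum (𝓞 K) => ‖loc E v ((nm v : ℂ) ^ (-s)) - 1‖ :=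
    Summable.of_nonneg_of_le (fun v => norm_nonneg _) (fun v => loc_sub (hE v) hs) h1
  have h3 : Multipliable fun v : HeightOneSpectrum (𝓞 K) =>
      1 + (loc E v ((nm v : ℂ) ^ (-s)) - 1) := multipliable_one_add_of_summable h2
  obtain ⟨M, hM⟩ := h3
  have h4 : HasProd (fun v : HeightOneSpectrum (𝓞 K) => (loc E v ((nm v : ℂ) ^ (-s)))) M :=
    hM.congr_fun fun v => by ring
  have h5 := hL.mul h4
  have h6 : HasProd (fun v : HeightOneSpectrum (𝓞 K) => (1 : ℂ)) (L * M) :=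
    h5.congr_fun fun v => (inv_mul_cancel₀ (loc_ne (hE v) (by linarith))).symm
  have h7 : L * M = 1 := h6.unique hasProd_one
  intro h0
  rw [h0, zero_mul] at h7
  exact zero_ne_one h7

end nonvan

section twist
variable {k K : Type} [Field k] [NumberField k] [Field K] [NumberField K] [Algebra k K]

/-- the places above `v` -/
noncomputable def fib (K : Type) [Field K] [NumberField K] [Algebra k K]
    (v : HeightOneSpectrum (𝓞 k)) : Finset (HeightOneSpectrum (𝓞 K)) :=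
  (show {w : HeightOneSpectrum (𝓞 K) | w.under (𝓞 k) = v}.Finite by
    have h1 : (Ideal.map (algebraMap (𝓞 k) (𝓞 K)) v.asIdeal) ≠ 0 := by
      rw [Ne, Ideal.zero_eq_bot, Ideal.map_eq_bot_iff_of_injective
        (FaithfulSMul.algebraMap_injective (𝓞 k) (𝓞 K))]
      exact v.ne_bot
    refine (Ideal.finite_factors h1).subset fun w hw => ?_
    have hw : w.under (𝓞 k) = v := hw
    have h2 : w.asIdeal.under (𝓞 k) = v.asIdeal := congrArg HeightOneSpectrum.asIdeal hw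
    exact Ideal.dvd_iff_le.2 (Ideal.map_le_iff_le_comap.2 h2.ge)).toFinset

lemma mem_fib {v : HeightOneSpectrum (𝓞 k)} {w : HeightOneSpectrum (𝓞 K)} :
    w ∈ fib K v ↔ w.under (𝓞 k) = v := by
  unfold fib
  rw [Set.Finite.mem_toFinset]
  rfl

lemma mem_fib' {v : HeightOneSpectrum (𝓞 k)} {w : HeightOneSpectrum (𝓞 K)} :
    w ∈ fib K v ↔ w.asIdeal.LiesOver v.asIdeal := by
  rw [mem_fib]
  constructor
  · rintro rfl
    exact ⟨rfl⟩
  · intro h
    apply HeightOneSpectrum.ext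
    exact h.over.symm

/-- the product over the places above `v` -/
noncomputable def P (E : WeierstrassCurve K) (v : HeightOneSpectrum (𝓞 k)) (s : ℂ) : ℂ :=
  ∏ w ∈ fib K v, loc E w ((nm w : ℂ) ^ (-s))

lemma P_ne {E : WeierstrassCurve K} (hE : ∀ w, HBd (aV E w) (eV E w) (nm w))
    (v : HeightOneSpectrum (𝓞 k)) {s : ℂ} (hs : 1 / 2 < s.re) : P E v s ≠ 0 :=
  Finset.prod_ne_zero_iff.2 fun w _ => loc_ne (hE w) hs

lemma P_diff (E : WeierstrassCurve K) (v : HeightOneSpectrum (𝓞 k)) :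
    Differentiable ℂ (P E v) := by
  unfold P
  refine Differentiable.fun_finsetProd fun w _ => ?_
  have h4 : Differentiable ℂ (fun s : ℂ => (nm w : ℂ) ^ (-s)) := by
    intro s
    exact DifferentiableAt.const_cpow (by fun_prop) (Or.inl (nm_ne w))
  unfold loc
  exact ((differentiable_const _).sub ((differentiable_const _).mul h4)).add
    ((differentiable_const _).mul (h4.pow 2))

lemma loc_diff (E : WeierstrassCurve k) (v : HeightOneSpectrum (𝓞 k)) :
    Differentiable ℂ (fun s : ℂ => loc E v ((nm v : ℂ) ^ (-s))) := by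
  have h4 : Differentiable ℂ (fun s : ℂ => (nm v : ℂ) ^ (-s)) := by
    intro s
    exact DifferentiableAt.const_cpow (by fun_prop) (Or.inl (nm_ne v))
  unfold loc
  exact ((differentiable_const _).sub ((differentiable_const _).mul h4)).add
    ((differentiable_const _).mul (h4.pow 2))

/-- grouping the places of `K` -/
theorem group {E : WeierstrassCurve K} {s : ℂ} {L : ℂ}
    (hL : HasProd (fun w : HeightOneSpectrum (𝓞 K) => (loc E w ((nm w : ℂ) ^ (-s)))⁻¹) L) :
    HasProd (fun v : HeightOneSpectrum (𝓞 k) => (P E v s)⁻¹) L := by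
  let un : HeightOneSpectrum (𝓞 K) → HeightOneSpectrum (𝓞 k) := fun w => w.under (𝓞 k)
  have h1 : HasProd (fun x : (Σ v : HeightOneSpectrum (𝓞 k), {w // un w = v}) =>
      (loc E x.2.1 ((nm x.2.1 : ℂ) ^ (-s)))⁻¹) L :=
    (Equiv.hasProd_iff (Equiv.sigmaFiberEquiv un)
      (f := fun w : HeightOneSpectrum (𝓞 K) => (loc E w ((nm w : ℂ) ^ (-s)))⁻¹)).2 hL
  refine h1.sigma fun v => ?_
  have hS : ∀ w : HeightOneSpectrum (𝓞 K), w ∈ fib K v ↔ un w = v := fun w => mem_fib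
  have h2 : HasProd (fun c : {w // w ∈ fib K v} => (loc E c.1 ((nm c.1 : ℂ) ^ (-s)))⁻¹)
      (∏ w ∈ fib K v, (loc E w ((nm w : ℂ) ^ (-s)))⁻¹) := by
    have h3 := hasProd_fintype (fun c : {w // w ∈ fib K v} => (loc E c.1 ((nm c.1 : ℂ) ^ (-s)))⁻¹)
    have h4 : ∏ c : {w // w ∈ fib K v}, (loc E c.1 ((nm c.1 : ℂ) ^ (-s)))⁻¹ =
        ∏ w ∈ fib K v, (loc E w ((nm w : ℂ) ^ (-s)))⁻¹ :=
      Finset.prod_coe_sort (fib K v) (fun w => (loc E w ((nm w : ℂ) ^ (-s)))⁻¹)
    rwa [h4] at h3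
  unfold P
  rw [← Finset.prod_inv_distrib]
  exact (Equiv.hasProd_iff (Equiv.subtypeEquivRight hS).symm
    (f := fun c : {w // w ∈ fib K v} => (loc E c.1 ((nm c.1 : ℂ) ^ (-s)))⁻¹)).2 h2

/-- **The Euler product of the twist.** -/
theorem twist_euler {E : WeierstrassCurve k} {EK : WeierstrassCurve K}
    (hE : ∀ v, HBd (aV E v) (eV E v) (nm v)) (hEK : ∀ w, HBd (aV EK w) (eV EK w) (nm w))
    {Lk LK : ℂ → ℂ}
    (m1 : MeromorphicOn Lk Set.univ) (m2 : ∀ s : ℂ, 3 / 2 < s.re → Lk s = E.LSeries s)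
    (m3 : AnalyticAt ℂ Lk 1) (m4 : Lk 1 ≠ 0)
    (n1 : MeromorphicOn LK Set.univ) (n2 : ∀ s : ℂ, 3 / 2 < s.re → LK s = EK.LSeries s)
    (n3 : AnalyticAt ℂ LK 1) (n4 : LK 1 ≠ 0) {B : 𝓞 k} (hB : B ≠ 0)
    (χ : HeightOneSpectrum (𝓞 k) → ℂ)
    (hχ : ∀ v : HeightOneSpectrum (𝓞 k), B ∉ v.asIdeal → ∀ s : ℂ, P EK v s =
      loc E v ((nm v : ℂ) ^ (-s)) * loc E v (χ v * (nm v : ℂ) ^ (-s))) :
    ∃ L : ℂ → ℂ, MeromorphicOn L Set.univ ∧ AnalyticAt ℂ L 1 ∧ L 1 ≠ 0 ∧
      ∀ s : ℂ, 3 / 2 < s.re →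
        HasProd (fun v : {v : HeightOneSpectrum (𝓞 k) // B ∉ v.asIdeal} =>
          (loc E v.1 (χ v.1 * (nm v.1 : ℂ) ^ (-s)))⁻¹) (L s) := by
  have hfin := fin_mem (K := k) hB
  let C : ℂ → ℂ := fun s => ∏ v ∈ hfin.toFinset, (P EK v s * (loc E v ((nm v : ℂ) ^ (-s)))⁻¹)
  have hCm : ∀ s, MeromorphicAt C s := by
    intro s
    refine MeromorphicAt.fun_prod fun v _ => ?_
    exact ((P_diff EK v).analyticAt s).meromorphicAt.mul
      ((loc_diff E v).analyticAt s).meromorphicAt.inv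
  have hCa : AnalyticAt ℂ C 1 := by
    refine Finset.analyticAt_fun_prod _ fun v _ => ?_
    exact ((P_diff EK v).analyticAt 1).mul
      (((loc_diff E v).analyticAt 1).inv (loc_ne (hE v) (by norm_num)))
  have hC1 : C 1 ≠ 0 := Finset.prod_ne_zero_iff.2 fun v _ =>
    mul_ne_zero (P_ne hEK v (by norm_num)) (inv_ne_zero (loc_ne (hE v) (by norm_num)))
  refine ⟨fun s => LK s * (Lk s)⁻¹ * C s, fun s _ => ?_, ?_, ?_, fun s hs => ?_⟩
  · exact ((n1 s (Set.mem_univ _)).mul (m1 s (Set.mem_univ _)).inv).mul (hCm s)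
  · exact (n3.mul (m3.inv m4)).mul hCa
  · exact mul_ne_zero (mul_ne_zero n4 (inv_ne_zero m4)) hC1
  · obtain ⟨-, a1⟩ := LSeries_hasProd' E hE hs
    obtain ⟨-, a2⟩ := LSeries_hasProd' EK hEK hs
    rw [← m2 s hs] at a1
    rw [← n2 s hs] at a2
    have a1' : HasProd (fun v : HeightOneSpectrum (𝓞 k) => (loc E v ((nm v : ℂ) ^ (-s)))⁻¹)
      (Lk s) := a1
    have hne := euler_ne hE hs a1'
    have a3 := a1'.inv₀ hne
    have a4 := group (k := k) (E := EK) a2
    have a5 := a4.mul a3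
    have h6 : HasProd (fun v : HeightOneSpectrum (𝓞 k) => if B ∈ v.asIdeal then
        P EK v s * (loc E v ((nm v : ℂ) ^ (-s)))⁻¹ else 1)
        (∏ v ∈ hfin.toFinset, if B ∈ v.asIdeal then
          P EK v s * (loc E v ((nm v : ℂ) ^ (-s)))⁻¹ else 1) := by
      refine hasProd_prod_of_ne_finset_one fun v hv => ?_
      rw [if_neg]
      intro h
      exact hv (hfin.mem_toFinset.2 h)
    have h7 : (∏ v ∈ hfin.toFinset, if B ∈ v.asIdeal then
        P EK v s * (loc E v ((nm v : ℂ) ^ (-s)))⁻¹ else 1) = C s :=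
      Finset.prod_congr rfl fun p hp => if_pos (hfin.mem_toFinset.1 hp)
    rw [h7] at h6
    have h8 : HasProd (fun v : {v : HeightOneSpectrum (𝓞 k) | B ∉ v.asIdeal} =>
        (loc E v.1 (χ v.1 * (nm v.1 : ℂ) ^ (-s)))⁻¹) (LK s * (Lk s)⁻¹ * C s) := by
      rw [← Function.comp_def (f := fun v : HeightOneSpectrum (𝓞 k) =>
        (loc E v (χ v * (nm v : ℂ) ^ (-s)))⁻¹), hasProd_subtype_iff_mulIndicator]
      refine (a5.mul h6).congr_fun fun v => ?_
      have hl := loc_ne (hE v) (s := s) (by linarith)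
      have hP := P_ne hEK v (s := s) (by linarith)
      by_cases hv : B ∈ v.asIdeal
      · rw [if_pos hv, Set.mulIndicator_of_notMem (by simpa using hv)]
        field_simp
      · rw [if_neg hv, Set.mulIndicator_of_mem (by simpa using hv), mul_one]
        have h9 := hχ v hv s
        rw [h9] at hP ⊢
        have h10 := right_ne_zero_of_mul hP
        field_simp
    exact h8

end twist

end Pool.Agent.L7h1.SP
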