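import Pool.Agent.Y696.Gq
import Pool.Agent.Y696.Nh

/-!
# The 2-part over the rational numbers
-/

set_option autoImplicit false
set_option linter.unusedSectionVars false
set_option linter.style.haveILetI false

open IsDedekindDomain NumberField
open scoped Classical

namespace Pool.Agent.L7h1.SP

open Pool.Agent.Y696 (TwoPart IsArtin)

/-- the trivial extension -/
lemma art_one (F : Type) [Field F] [NumberField F] :
    IsArtin (F := F) (K := F) 1 1 where
  surj := fun σ => ⟨1, Subsingleton.elim _ _⟩
  unr := fun v _ => by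
    have : Algebra.FormallyUnramified (𝓞 F) (Localization.AtPrime v.asIdeal) :=
      Algebra.FormallyUnramified.of_isLocalization v.asIdeal.primeCompl
    exact this
  frob := fun π hπ u _ v hv x => by
    have h1 : (Ideal.span {π} : Ideal (𝓞 F)).IsPrime :=
      (Ideal.span_singleton_prime hπ.ne_zero).2 hπ
    have h0 : (Ideal.span {π} : Ideal (𝓞 F)) ≠ ⊥ := by
      rw [Ne, Ideal.span_singleton_eq_bot]
      exact hπ.ne_zero
    have h2 : (Ideal.span {π} : Ideal (𝓞 F)).IsMaximal := h1.isMaximal h0
    have h3 : (Ideal.span {π} : Ideal (𝓞 F)) ≤ v.asIdeal := by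
      rw [Ideal.span_singleton_le_iff_mem]
      exact hv
    have h4 : Finite (𝓞 F ⧸ (Ideal.span {π} : Ideal (𝓞 F))) :=
      Ideal.finiteQuotientOfFreeOfNeBot _ h0
    letI : Field (𝓞 F ⧸ (Ideal.span {π} : Ideal (𝓞 F))) := Ideal.Quotient.field _
    apply h3
    rw [MonoidHom.one_apply, one_smul, ← Ideal.Quotient.eq, map_pow]
    letI : Fintype (𝓞 F ⧸ (Ideal.span {π} : Ideal (𝓞 F))) := Fintype.ofFinite _
    rw [Nat.card_eq_fintype_card]
    exact (FiniteField.pow_card _).symm

theorem rat' (F : Type) [Field F] [NumberField F] [IsCyclotomicExtension {3} ℚ F]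
    {k : Type} [Field k] [NumberField k] (h : Module.finrank ℚ k = 1) : TwoPart k := by
  have hb : Function.Bijective (algebraMap ℚ k) := by
    refine ⟨(algebraMap ℚ k).injective, ?_⟩
    have h1 := (Subalgebra.bot_eq_top_iff_finrank_eq_one (F := ℚ) (E := k)).2 h
    intro x
    have h2 : x ∈ (⊥ : Subalgebra ℚ k) := by
      rw [h1]
      exact Algebra.mem_top
    exact Algebra.mem_bot.1 h2
  let e : ℚ ≃+* k := RingEquiv.ofBijective (algebraMap ℚ k) hb
  letI : Algebra k F := ((algebraMap ℚ F).comp (e.symm : k →+* ℚ)).toAlgebra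
  have hF : Module.finrank ℚ F = 2 := by
    rw [IsCyclotomicExtension.finrank (n := 3) F (Polynomial.cyclotomic.irreducible_rat (by norm_num))]
    decide
  haveI : IsScalarTower ℚ k F := IsScalarTower.of_algebraMap_eq' (Subsingleton.elim _ _)
  have h2 : Module.finrank k F = 2 := by
    have h3 := Module.finrank_mul_finrank ℚ k F
    rw [h, hF, one_mul] at h3
    exact h3
  refine Pool.Agent.Y696.all_small (F := F) (K := F) (K₀ := k) (n := 0) (by rw [h, pow_zero]) h2
    (fun x hx => ?_) (art_one F) (fun v₀ h1 => absurd ((Ideal.eq_top_iff_one _).2 h1)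
      v₀.isPrime.ne_top)
  have h3 : (e.symm x) ^ 2 = -3 := by
    rw [← map_pow, hx, map_neg, map_ofNat]
  have h4 := sq_nonneg (e.symm x)
  rw [h3] at h4
  norm_num at h4

/-- **everything over the rational numbers** -/
theorem rat {k : Type} [Field k] [NumberField k] (h : Module.finrank ℚ k = 1) : TwoPart k := by
  have : IsCyclotomicExtension {3} ℚ (CyclotomicField 3 ℚ) :=
    CyclotomicField.isCyclotomicExtension 3 ℚ
  have : NumberField (CyclotomicField 3 ℚ) := inferInstance
  exact rat' (CyclotomicField 3 ℚ) h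

end Pool.Agent.L7h1.SP
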