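import Mathlib

/-!
# The primes of a quadratic extension of number fields
-/

set_option autoImplicit false
set_option linter.unusedSectionVars false
set_option linter.unusedVariables false

open IsDedekindDomain NumberField
open scoped Classical Pointwise

namespace Pool.Agent.L7h1.SP

section
variable {K₀ K : Type} [Field K₀] [NumberField K₀] [Field K] [NumberField K] [Algebra K₀ K]

lemma tau_smul {r : 𝓞 K} {τ : K ≃ₐ[K₀] K} (hτ : τ (r : K) = -(r : K)) : τ • r = -r := by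
  apply RingOfIntegers.ext
  have h1 : ((τ • r : 𝓞 K) : K) = τ (r : K) := rfl
  rw [h1, hτ]
  rfl

lemma not_mem_of {p : Ideal (𝓞 K₀)} {P : Ideal (𝓞 K)} [P.LiesOver p] {x : 𝓞 K₀} (hx : x ∉ p) :
    algebraMap (𝓞 K₀) (𝓞 K) x ∉ P := by
  intro h
  apply hx
  rw [P.over_def p, Ideal.mem_comap]
  exact h

/-- the nontrivial automorphism -/
lemma exists_tau (h2 : Module.finrank K₀ K = 2) {r : 𝓞 K} {δ : 𝓞 K₀}
    (hr : r ^ 2 = algebraMap (𝓞 K₀) (𝓞 K) δ) (hns : ∀ x : K₀, algebraMap K₀ K x ≠ r) :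
    ∃ τ : K ≃ₐ[K₀] K, τ (r : K) = -(r : K) := by
  have hquad : Algebra.IsQuadraticExtension K₀ K := ⟨h2⟩
  have hgal : IsGalois K₀ K := inferInstance
  have h3 : ∃ τ : K ≃ₐ[K₀] K, τ (r : K) ≠ r := by
    by_contra h
    push Not at h
    have h4 : (r : K) ∈ (⊥ : IntermediateField K₀ K) :=
      (IsGalois.mem_bot_iff_fixed (r : K)).2 h
    obtain ⟨x, hx⟩ := IntermediateField.mem_bot.1 h4
    exact hns x hx
  obtain ⟨τ, hτ⟩ := h3
  refine ⟨τ, ?_⟩
  have h5 : (r : K) ^ 2 = algebraMap K₀ K (δ : K₀) := by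
    have := congrArg (fun z : 𝓞 K => (z : K)) hr
    exact this
  have h6 : (τ (r : K)) ^ 2 = (r : K) ^ 2 := by
    rw [← map_pow, h5, τ.commutes]
  have h7 : (τ (r : K) - r) * (τ (r : K) + r) = 0 := by linear_combination h6
  rcases mul_eq_zero.1 h7 with h8 | h8
  · exact absurd (sub_eq_zero.1 h8) hτ
  · exact eq_neg_of_add_eq_zero_left h8

/-- **The primes above a prime that does not divide `2 δ`.** -/
theorem split (h2 : Module.finrank K₀ K = 2) {r : 𝓞 K} {δ : 𝓞 K₀}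
    (hr : r ^ 2 = algebraMap (𝓞 K₀) (𝓞 K) δ) (hns : ∀ x : K₀, algebraMap K₀ K x ≠ r)
    (v : HeightOneSpectrum (𝓞 K₀)) (h2v : (2 : 𝓞 K₀) ∉ v.asIdeal) (hδ : δ ∉ v.asIdeal) :
    ((∃ a : 𝓞 K₀, a ^ 2 - δ ∈ v.asIdeal) ∧ ∃ w w' : HeightOneSpectrum (𝓞 K), w ≠ w' ∧
      (∀ u : HeightOneSpectrum (𝓞 K), u.asIdeal.LiesOver v.asIdeal ↔ u = w ∨ u = w') ∧
      Nat.card (𝓞 K ⧸ w.asIdeal) = Nat.card (𝓞 K₀ ⧸ v.asIdeal) ∧
      Nat.card (𝓞 K ⧸ w'.asIdeal) = Nat.card (𝓞 K₀ ⧸ v.asIdeal)) ∨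
    ((¬ ∃ a : 𝓞 K₀, a ^ 2 - δ ∈ v.asIdeal) ∧ ∃ w : HeightOneSpectrum (𝓞 K),
      (∀ u : HeightOneSpectrum (𝓞 K), u.asIdeal.LiesOver v.asIdeal ↔ u = w) ∧
      Nat.card (𝓞 K ⧸ w.asIdeal) = Nat.card (𝓞 K₀ ⧸ v.asIdeal) ^ 2) := by
  obtain ⟨τ, hτ⟩ := exists_tau h2 hr hns
  have hquad : Algebra.IsQuadraticExtension K₀ K := ⟨h2⟩
  have hgal : IsGalois K₀ K := inferInstance
  have hcard : Nat.card (K ≃ₐ[K₀] K) = 2 := (IsGalois.card_aut_eq_finrank K₀ K).trans h2
  have htwo_r : ∀ (P : Ideal (𝓞 K)) [P.IsPrime] [P.LiesOver v.asIdeal], 2 * r ∉ P := by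
    intro P hP _ h
    rcases hP.mem_or_mem h with h3 | h3
    · have := not_mem_of (P := P) h2v
      rw [map_ofNat] at this
      exact this h3
    · have h4 := not_mem_of (P := P) hδ
      rw [← hr] at h4
      exact h4 (Ideal.pow_mem_of_mem _ h3 2 (by norm_num))
  have hr0 : (r : K) ≠ 0 := by
    intro h
    exact hns 0 (by rw [map_zero, h])
  have hτ1 : τ ≠ 1 := by
    rintro rfl
    have h3 : (r : K) = -(r : K) := hτ
    have h4 : (2 : K) * r = 0 := by linear_combination h3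
    rcases mul_eq_zero.1 h4 with h5 | h5
    · exact two_ne_zero h5
    · exact hr0 h5
  have hG : ∀ g : K ≃ₐ[K₀] K, g = 1 ∨ g = τ := by
    intro g
    obtain ⟨a, b, hab, hu⟩ := Nat.card_eq_two_iff.1 hcard
    have m1 : (1 : K ≃ₐ[K₀] K) ∈ ({a, b} : Set (K ≃ₐ[K₀] K)) := hu ▸ Set.mem_univ _
    have m2 : τ ∈ ({a, b} : Set (K ≃ₐ[K₀] K)) := hu ▸ Set.mem_univ _
    have m3 : g ∈ ({a, b} : Set (K ≃ₐ[K₀] K)) := hu ▸ Set.mem_univ _
    simp only [Set.mem_insert_iff, Set.mem_singleton_iff] at m1 m2 m3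
    rcases m1 with m1 | m1 <;> rcases m2 with m2 | m2 <;> rcases m3 with m3 | m3
    · exact absurd (m2.trans m1.symm) hτ1
    · exact absurd (m2.trans m1.symm) hτ1
    · exact Or.inl (m3.trans m1.symm)
    · exact Or.inr (m3.trans m2.symm)
    · exact Or.inr (m3.trans m2.symm)
    · exact Or.inl (m3.trans m1.symm)
    · exact absurd (m2.trans m1.symm) hτ1
    · exact absurd (m2.trans m1.symm) hτ1
  have hτinv : τ⁻¹ = τ := by
    rcases hG τ⁻¹ with h | h
    · exact absurd (inv_eq_one.1 h) hτ1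
    · exact h
  have hpmax : v.asIdeal.IsMaximal := v.isPrime.isMaximal v.ne_bot
  have hfp : Finite (𝓞 K₀ ⧸ v.asIdeal) := Ideal.finiteQuotientOfFreeOfNeBot v.asIdeal v.ne_bot
  have hne : ∀ (P : Ideal (𝓞 K)) [P.IsPrime] [P.LiesOver v.asIdeal], P ≠ ⊥ := by
    intro P _ _ h
    exact v.ne_bot ((Ideal.over_def P v.asIdeal).trans (by
      rw [h]
      exact Ideal.under_bot (𝓞 K₀) (𝓞 K)))
  have hinert : ∀ (P : Ideal (𝓞 K)) [P.IsPrime] [P.LiesOver v.asIdeal],
      Nat.card (P.inertia (K ≃ₐ[K₀] K)) = 1 := by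
    intro P _ _
    rw [Subgroup.card_eq_one, Subgroup.eq_bot_iff_forall]
    intro g hg
    rcases hG g with h | h
    · exact h
    · exfalso
      subst h
      have h4 : g • r - r ∈ P := hg r
      rw [tau_smul hτ] at h4
      apply htwo_r P
      have h5 : 2 * r = -(-r - r) := by ring
      rw [h5]
      exact P.neg_mem h4
  have hperf : PerfectField v.asIdeal.ResidueField := by
    have : Finite v.asIdeal.ResidueField := by
      have := Ideal.bijective_algebraMap_quotient_residueField v.asIdeal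
      exact Finite.of_surjective _ this.2
    infer_instance
  have hfund : ∀ (P : Ideal (𝓞 K)) [P.IsPrime] [P.LiesOver v.asIdeal],
      (v.asIdeal.primesOver (𝓞 K)).ncard * P.inertiaDeg (𝓞 K₀) = 2 := by
    intro P _ _
    have h4 := Ideal.ncard_primesOver_mul_card_inertia_mul_finrank (G := K ≃ₐ[K₀] K) v.asIdeal P
    rw [hinert P, mul_one, hcard] at h4
    exact h4
  have hcardP : ∀ (P : Ideal (𝓞 K)) [P.IsPrime] [P.LiesOver v.asIdeal],
      Nat.card (𝓞 K ⧸ P) = Nat.card (𝓞 K₀ ⧸ v.asIdeal) ^ P.inertiaDeg (𝓞 K₀) := by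
    intro P hP _
    have h4 : P.IsMaximal := hP.isMaximal (hne P)
    rw [← Ideal.inertiaDeg'_eq_inertiaDeg v.asIdeal P, Ideal.inertiaDeg'_algebraMap]
    let _ := Ideal.Quotient.field v.asIdeal
    exact Module.natCard_eq_pow_finrank (K := 𝓞 K₀ ⧸ v.asIdeal) (V := 𝓞 K ⧸ P)
  obtain ⟨⟨P, hP, hPo⟩⟩ : Nonempty (Ideal.primesOver v.asIdeal (𝓞 K)) := inferInstance
  have hPmax : P.IsMaximal := hP.isMaximal (hne P)
  have hfP : Finite (𝓞 K ⧸ P) := Ideal.finiteQuotientOfFreeOfNeBot P (hne P)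
  let w : HeightOneSpectrum (𝓞 K) := ⟨P, hP, hne P⟩
  have hP1 : (τ⁻¹ • P).IsPrime := inferInstance
  have hP2 : (τ⁻¹ • P).LiesOver v.asIdeal := inferInstance
  have hmem : ∀ x : 𝓞 K, x ∈ τ⁻¹ • P ↔ τ • x ∈ P := fun x => Ideal.mem_inv_pointwise_smul_iff
  have htrans : ∀ (Q : Ideal (𝓞 K)) [Q.IsPrime] [Q.LiesOver v.asIdeal], Q = P ∨ Q = τ⁻¹ • P := by
    intro Q _ _
    obtain ⟨g, hg⟩ := Ideal.exists_smul_eq_of_isGaloisGroup v.asIdeal P Q (K ≃ₐ[K₀] K)
    rcases hG g with h | h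
    · left
      rw [← hg, h, one_smul]
    · right
      rw [← hg, h, hτinv]
  have hprod := hfund P
  by_cases hsame : τ⁻¹ • P = P
  · -- one prime
    right
    have hone : v.asIdeal.primesOver (𝓞 K) = {P} := by
      ext Q
      constructor
      · rintro ⟨hQ1, hQ2⟩
        rcases htrans Q with h | h
        · exact h
        · exact h.trans hsame
      · rintro rfl
        exact ⟨hP, hPo⟩
    have hf2 : P.inertiaDeg (𝓞 K₀) = 2 := by
      rw [hone, Set.ncard_singleton, one_mul] at hprod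
      exact hprod
    have hmem' : ∀ x : 𝓞 K, x ∈ P ↔ τ • x ∈ P := by
      intro x
      rw [← hmem x, hsame]
    refine ⟨?_, w, ?_, ?_⟩
    · rintro ⟨a, ha⟩
      have haP : (algebraMap (𝓞 K₀) (𝓞 K) a) ^ 2 - r ^ 2 ∈ P := by
        rw [Ideal.over_def P v.asIdeal, Ideal.mem_comap, map_sub, map_pow] at ha
        rw [hr]
        exact ha
      have hfix : ∀ b : 𝓞 K₀, τ • algebraMap (𝓞 K₀) (𝓞 K) b = algebraMap (𝓞 K₀) (𝓞 K) b := by
        intro b
        exact smul_algebraMap τ b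
      have hkey : ∀ b : 𝓞 K₀, r - algebraMap (𝓞 K₀) (𝓞 K) b ∉ P := by
        intro b hb
        have h5 := (hmem' _).1 hb
        rw [smul_sub, tau_smul hτ, hfix] at h5
        apply htwo_r P
        have h6 := P.sub_mem hb h5
        have h7 : 2 * r = r - algebraMap (𝓞 K₀) (𝓞 K) b -
          (-r - algebraMap (𝓞 K₀) (𝓞 K) b) := by ring
        rw [h7]
        exact h6
      have hmul : (r - algebraMap (𝓞 K₀) (𝓞 K) a) *
          (r - algebraMap (𝓞 K₀) (𝓞 K) (-a)) ∈ P := by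
        have h5 : (r - algebraMap (𝓞 K₀) (𝓞 K) a) *
          (r - algebraMap (𝓞 K₀) (𝓞 K) (-a)) =
          - ((algebraMap (𝓞 K₀) (𝓞 K) a) ^ 2 - r ^ 2) := by
          rw [map_neg]
          ring
        rw [h5]
        exact P.neg_mem haP
      rcases hP.mem_or_mem hmul with h5 | h5
      · exact hkey _ h5
      · exact hkey _ h5
    · intro u
      constructor
      · intro hu
        have := u.isPrime
        apply HeightOneSpectrum.ext
        rcases htrans u.asIdeal with h | h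
        · exact h
        · exact h.trans hsame
      · rintro rfl
        exact hPo
    · change Nat.card (𝓞 K ⧸ P) = _
      rw [hcardP P, hf2]
  · -- two primes
    left
    have htwo : v.asIdeal.primesOver (𝓞 K) = {P, τ⁻¹ • P} := by
      ext Q
      constructor
      · rintro ⟨hQ1, hQ2⟩
        rcases htrans Q with h | h
        · exact Or.inl h
        · exact Or.inr h
      · rintro (rfl | rfl)
        · exact ⟨hP, hPo⟩
        · exact ⟨hP1, hP2⟩
    have hnc : (v.asIdeal.primesOver (𝓞 K)).ncard = 2 := by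
      rw [htwo, Set.ncard_pair (Ne.symm hsame)]
    have hf1 : ∀ (Q : Ideal (𝓞 K)) [Q.IsPrime] [Q.LiesOver v.asIdeal],
        Q.inertiaDeg (𝓞 K₀) = 1 := by
      intro Q _ _
      have h4 := hfund Q
      rw [hnc] at h4
      omega
    have hcP : Nat.card (𝓞 K ⧸ P) = Nat.card (𝓞 K₀ ⧸ v.asIdeal) := by
      rw [hcardP P, hf1 P, pow_one]
    refine ⟨?_, w, ⟨τ⁻¹ • P, hP1, hne _⟩, ?_, ?_, hcP, ?_⟩
    · have hinj : Function.Injective (algebraMap (𝓞 K₀ ⧸ v.asIdeal) (𝓞 K ⧸ P)) := by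
        let _ := Ideal.Quotient.field v.asIdeal
        exact (algebraMap (𝓞 K₀ ⧸ v.asIdeal) (𝓞 K ⧸ P)).injective
      have hsurj : Function.Surjective (algebraMap (𝓞 K₀ ⧸ v.asIdeal) (𝓞 K ⧸ P)) :=
        ((Nat.bijective_iff_injective_and_card _).2 ⟨hinj, hcP.symm⟩).2
      obtain ⟨x, hx⟩ := hsurj (Ideal.Quotient.mk P r)
      obtain ⟨a, rfl⟩ := Ideal.Quotient.mk_surjective x
      have h5 : algebraMap (𝓞 K₀) (𝓞 K) a - r ∈ P := by
        rw [← Ideal.Quotient.eq]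
        exact hx
      refine ⟨a, ?_⟩
      rw [Ideal.over_def P v.asIdeal, Ideal.mem_comap, map_sub, map_pow, ← hr]
      have h6 : (algebraMap (𝓞 K₀) (𝓞 K) a) ^ 2 - r ^ 2 =
          (algebraMap (𝓞 K₀) (𝓞 K) a + r) * (algebraMap (𝓞 K₀) (𝓞 K) a - r) := by ring
      rw [h6]
      exact P.mul_mem_left _ h5
    · intro h
      exact hsame (congrArg HeightOneSpectrum.asIdeal h).symm
    · intro u
      constructor
      · intro hu
        have := u.isPrime
        rcases htrans u.asIdeal with h | h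
        · exact Or.inl (HeightOneSpectrum.ext h)
        · exact Or.inr (HeightOneSpectrum.ext h)
      · rintro (rfl | rfl)
        · exact hPo
        · exact hP2
    · change Nat.card (𝓞 K ⧸ (τ⁻¹ • P)) = _
      rw [hcardP (τ⁻¹ • P), hf1 (τ⁻¹ • P), pow_one]

end

end Pool.Agent.L7h1.SP
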